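import Pool.Agent.L0h45.AV.Stm

/-!
# Project AV, module NBH (helper82): the tuples with small `a` are near those with `a = 0`
-/

set_option autoImplicit false
set_option linter.all false

open MeasureTheory Filter Topology

namespace Pool.Agent.L0h82.AV

open Pool.Agent.L0h45.AV
open Pool.Agent.N874.PP (Tup chA chB gq tau)

/-- the parameters `(p, v, θ, C, S)` -/
abbrev E5 := ℝ × ℝ × ℝ × ℝ × ℝ

/-- the coordinates of the tuple with these parameters -/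
noncomputable def Phi (e : E5) : Fin 4 → ℝ := cd (Bp e.1 e.2.1 e.2.2.1 e.2.2.2.1 e.2.2.2.2)

/-- the compact set of parameters -/
def EE (T δ : ℝ) : Set E5 :=
  {e | (0 ≤ e.1 ∧ e.1 ≤ 1 / 2) ∧ (1 / 2 ≤ e.2.1 ∧ e.2.1 ≤ T) ∧ 1 / 2 ≤ e.1 ^ 2 + e.2.1 ^ 2 ∧
    (-1 ≤ e.2.2.1 ∧ e.2.2.1 ≤ 1) ∧
    12 * e.2.2.1 ^ 2 ≤ e.2.2.2.1 ^ 2 + e.2.2.2.2 ^ 2 ∧ e.2.2.2.1 ^ 2 + e.2.2.2.2 ^ 2 ≤ 12 * e.2.2.1 ^ 2 + 1 ∧
    δ * (4 * e.2.1 ^ 2) ≤ 3 * e.2.2.1 + e.2.2.2.1}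

theorem EE_compact (T δ : ℝ) : IsCompact (EE T δ) := by
  have h1 : IsClosed (EE T δ) := by
    unfold EE
    simp only [Set.setOf_and]
    exact ((isClosed_le (by fun_prop) (by fun_prop)).inter (isClosed_le (by fun_prop) (by fun_prop))).inter
      (((isClosed_le (by fun_prop) (by fun_prop)).inter (isClosed_le (by fun_prop) (by fun_prop))).inter
      ((isClosed_le (by fun_prop) (by fun_prop)).inter
      (((isClosed_le (by fun_prop) (by fun_prop)).inter (isClosed_le (by fun_prop) (by fun_prop))).inter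
      ((isClosed_le (by fun_prop) (by fun_prop)).inter ((isClosed_le (by fun_prop) (by fun_prop)).inter
      (isClosed_le (by fun_prop) (by fun_prop)))))))
  refine (isCompact_Icc (a := ((0, 1 / 2, -1, -4, -4) : E5)) (b := (1 / 2, T, 1, 4, 4))).of_isClosed_subset h1 ?_
  rintro ⟨p, v, θ, C, S⟩ ⟨⟨a1, a2⟩, ⟨b1, b2⟩, -, ⟨c1, c2⟩, -, d, -⟩
  simp only at a1 a2 b1 b2 c1 c2 d
  have hθ : θ ^ 2 ≤ 1 := by nlinarith
  have hC : C ^ 2 ≤ 4 ^ 2 := by nlinarith [sq_nonneg S]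
  have hS : S ^ 2 ≤ 4 ^ 2 := by nlinarith [sq_nonneg C]
  have hC' := abs_le_of_sq_le_sq' hC (by norm_num)
  have hS' := abs_le_of_sq_le_sq' hS (by norm_num)
  exact ⟨⟨a1, b1, c1, hC'.1, hS'.1⟩, ⟨a2, b2, c2, hC'.2, hS'.2⟩⟩

theorem Phi_cont (T δ : ℝ) (hδ : 0 < δ) : ContinuousOn Phi (EE T δ) := by
  have hv : ∀ e ∈ EE T δ, e.2.1 ≠ 0 := by
    rintro e ⟨-, ⟨b1, -⟩, -⟩
    have : (0 : ℝ) < e.2.1 := by linarith
    exact this.ne'
  rw [continuousOn_pi]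
  intro i
  fin_cases i
  · show ContinuousOn (fun e : E5 => Real.log ((3 * e.2.2.1 + e.2.2.2.1) / (4 * e.2.1 ^ 2))) _
    refine ContinuousOn.log (ContinuousOn.div (by fun_prop) (by fun_prop) ?_) ?_
    · intro e he
      have := hv e he
      positivity
    · intro e he
      have h0 := hv e he
      have h1 : 0 < 3 * e.2.2.1 + e.2.2.2.1 := by
        have h2 : 0 < δ * (4 * e.2.1 ^ 2) := by positivity
        exact h2.trans_le he.2.2.2.2.2.2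
      have h3 : (0 : ℝ) < 4 * e.2.1 ^ 2 := by positivity
      exact (div_pos h1 h3).ne'
  · show ContinuousOn (fun e : E5 => (2 * e.1 * (3 * e.2.2.1 + e.2.2.2.1) - e.2.2.2.2 * e.2.1) / (4 * e.2.1 ^ 2)) _
    refine ContinuousOn.div (by fun_prop) (by fun_prop) ?_
    intro e he
    have := hv e he
    positivity
  · show ContinuousOn (fun e : E5 => -(e.1 ^ 2 * (3 * e.2.2.1 + e.2.2.2.1) - e.1 * e.2.2.2.2 * e.2.1 +
      e.2.2.1 * e.2.1 ^ 2) / (2 * e.2.1 ^ 2)) _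
    refine ContinuousOn.div (by fun_prop) (by fun_prop) ?_
    intro e he
    have := hv e he
    positivity
  · show ContinuousOn (fun e : E5 => (-2 * e.1 ^ 3 * (3 * e.2.2.1 + e.2.2.2.1) + 3 * e.1 ^ 2 * e.2.2.2.2 * e.2.1 -
      6 * e.1 * e.2.2.1 * e.2.1 ^ 2 + e.2.2.2.2 * e.2.1 ^ 3) / (2 * e.2.1 ^ 2)) _
    refine ContinuousOn.div (by fun_prop) (by fun_prop) ?_
    intro e he
    have := hv e he
    positivity

/-- polar coordinates -/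
theorem polar (θ C S : ℝ) (h : C ^ 2 + S ^ 2 = 12 * θ ^ 2) :
    ∃ φ : ℝ, 0 ≤ φ ∧ φ ≤ 2 * Real.pi ∧ C = 2 * √3 * θ * Real.cos φ ∧ S = 2 * √3 * θ * Real.sin φ := by
  have h3 : √(3 : ℝ) ^ 2 = 3 := Real.sq_sqrt (by norm_num)
  have h30 : 0 < √(3 : ℝ) := Real.sqrt_pos.2 (by norm_num)
  by_cases hθ : θ = 0
  · subst hθ
    refine ⟨0, le_rfl, by positivity, ?_, ?_⟩
    · nlinarith [sq_nonneg C, sq_nonneg S]
    · nlinarith [sq_nonneg C, sq_nonneg S]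
  · have hr : 2 * √3 * θ ≠ 0 := by positivity
    obtain ⟨z, hz⟩ : ∃ z : ℂ, z = ⟨C / (2 * √3 * θ), S / (2 * √3 * θ)⟩ := ⟨_, rfl⟩
    have hn : ‖z‖ = 1 := by
      have h1 : ‖z‖ ^ 2 = 1 := by
        rw [← Complex.normSq_eq_norm_sq, Complex.normSq_apply, hz]
        simp only
        have h2 : (2 * √3 * θ) ^ 2 = 12 * θ ^ 2 := by
          rw [mul_pow, mul_pow, h3]; ring
        have h4 : (2 * √3 * θ) ^ 2 ≠ 0 := pow_ne_zero _ hr
        have h5 : C / (2 * √3 * θ) * (C / (2 * √3 * θ)) + S / (2 * √3 * θ) * (S / (2 * √3 * θ)) =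
            (C ^ 2 + S ^ 2) / (2 * √3 * θ) ^ 2 := by
          field_simp
        rw [h5, h, h2]
        rw [h2] at h4
        exact div_self h4
      have h2 := norm_nonneg z
      nlinarith
    have hz0 : z ≠ 0 := by
      intro h0
      rw [h0, norm_zero] at hn
      exact zero_ne_one hn
    have hc := Complex.cos_arg hz0
    have hs := Complex.sin_arg z
    rw [hn, div_one] at hc hs
    have hC : C = 2 * √3 * θ * Real.cos (Complex.arg z) := by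
      rw [hc, hz]
      simp only
      field_simp
    have hS : S = 2 * √3 * θ * Real.sin (Complex.arg z) := by
      rw [hs, hz]
      simp only
      field_simp
    have hp := Real.pi_pos
    by_cases ha : 0 ≤ Complex.arg z
    · exact ⟨Complex.arg z, ha, by linarith [Complex.arg_le_pi z], hC, hS⟩
    · refine ⟨Complex.arg z + 2 * Real.pi, by linarith [Complex.neg_pi_lt_arg z], by linarith, ?_, ?_⟩
      · rw [Real.cos_add_two_pi]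
        exact hC
      · rw [Real.sin_add_two_pi]
        exact hS

/-- the parameters with `a = 0` -/
def E0 (T δ : ℝ) : Set E5 := {e | e ∈ EE T δ ∧ e.2.2.2.1 ^ 2 + e.2.2.2.2 ^ 2 = 12 * e.2.2.1 ^ 2}

theorem E0_compact (T δ : ℝ) : IsCompact (E0 T δ) := by
  have h : E0 T δ = EE T δ ∩ {e | e.2.2.2.1 ^ 2 + e.2.2.2.2 ^ 2 = 12 * e.2.2.1 ^ 2} := rfl
  rw [h]
  exact (EE_compact T δ).inter_right (isClosed_eq (by fun_prop) (by fun_prop))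

theorem half_le (p v : ℝ) (h : FD p v) : 1 / 2 ≤ v := by
  obtain ⟨h1, h2, h3, h4⟩ := h
  by_contra hcon
  push Not at hcon
  nlinarith

theorem x_iff (p v θ C S δ : ℝ) (hv : 0 < v) : δ ≤ (Bp p v θ C S).x ↔ δ * (4 * v ^ 2) ≤ 3 * θ + C := by
  show δ ≤ (3 * θ + C) / (4 * v ^ 2) ↔ _
  rw [le_div_iff₀ (by positivity)]

theorem image_eq (T δ : ℝ) (hδ : 0 < δ) : (fun q => cd (Bq q)) '' Dc T δ = Phi '' E0 T δ := by
  have h3 : √(3 : ℝ) ^ 2 = 3 := Real.sq_sqrt (by norm_num)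
  ext z
  constructor
  · rintro ⟨q, ⟨⟨hF, h5, h6, h7, h8⟩, h9, h10⟩, rfl⟩
    have hv := half_le _ _ hF
    have hkey : (2 * √3 * q 3 * Real.cos (q 2)) ^ 2 + (2 * √3 * q 3 * Real.sin (q 2)) ^ 2 = 12 * q 3 ^ 2 := by
      have h1 := Real.sin_sq_add_cos_sq (q 2)
      have h2 : (2 * √3 * q 3 * Real.cos (q 2)) ^ 2 + (2 * √3 * q 3 * Real.sin (q 2)) ^ 2 =
          4 * √3 ^ 2 * q 3 ^ 2 * (Real.sin (q 2) ^ 2 + Real.cos (q 2) ^ 2) := by ring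
      rw [h2, h1, h3]
      ring
    obtain ⟨h11, h12⟩ := abs_le.1 h7
    refine ⟨(q 0, q 1, q 3, 2 * √3 * q 3 * Real.cos (q 2), 2 * √3 * q 3 * Real.sin (q 2)), ⟨⟨⟨hF.1, hF.2.1⟩,
      ⟨hv, h9⟩, hF.2.2.2, ⟨h11, h12⟩, ?_, ?_, ?_⟩, hkey⟩, rfl⟩
    · exact hkey.symm.le
    · show (2 * √3 * q 3 * Real.cos (q 2)) ^ 2 + (2 * √3 * q 3 * Real.sin (q 2)) ^ 2 ≤ 12 * q 3 ^ 2 + 1
      rw [hkey]
      linarith
    · exact (x_iff _ _ _ _ _ _ hF.2.2.1).1 h10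
  · rintro ⟨⟨p, v, θ, C, S⟩, ⟨⟨⟨a1, a2⟩, ⟨b1, b2⟩, b3, ⟨c1, c2⟩, d1, d2, d3⟩, h0⟩, rfl⟩
    simp only at a1 a2 b1 b2 b3 c1 c2 d1 d2 d3 h0
    obtain ⟨φ, hφ0, hφ1, hC, hS⟩ := polar θ C S h0
    have hv : 0 < v := by linarith
    have hB : Bq ![p, v, φ, θ] = Bp p v θ C S := by
      show Bp p v θ (2 * √3 * θ * Real.cos φ) (2 * √3 * θ * Real.sin φ) = _
      rw [← hC, ← hS]
    have hx : δ ≤ (Bp p v θ C S).x := (x_iff _ _ _ _ _ _ hv).2 d3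
    refine ⟨![p, v, φ, θ], ⟨⟨⟨a1, a2, hv, b3⟩, hφ0, hφ1, abs_le.2 ⟨c1, c2⟩, ?_⟩, b2, ?_⟩, ?_⟩
    · rw [hB]
      exact hδ.trans_le hx
    · rw [hB]
      exact hx
    · show cd (Bq ![p, v, φ, θ]) = cd (Bp p v θ C S)
      rw [hB]

/-- **NBH.** -/
theorem t_NBH : S_NBH := by
  intro T δ hT hδ
  have hcont := Phi_cont T δ hδ
  have himg := image_eq T δ hδ
  have hsub : E0 T δ ⊆ EE T δ := fun e he => he.1
  refine ⟨?_, ?_⟩
  · rw [himg]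
    exact (E0_compact T δ).image_of_continuousOn (hcont.mono hsub)
  · intro U hU hKU
    rw [himg] at hKU
    -- the bad set
    have hK : IsCompact (EE T δ ∩ Phi ⁻¹' Uᶜ) := by
      obtain ⟨u, hu, hu2⟩ := continuousOn_iff_isClosed.1 hcont Uᶜ hU.isClosed_compl
      rw [Set.inter_comm, hu2, Set.inter_comm]
      exact (EE_compact T δ).inter_right hu
    -- membership
    have hmem : ∀ p v θ C S a₀ : ℝ, a₀ ≤ 1 → FD p v → v ≤ T → |θ| ≤ 1 → 12 * θ ^ 2 ≤ C ^ 2 + S ^ 2 →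
        C ^ 2 + S ^ 2 ≤ 12 * θ ^ 2 + a₀ → δ ≤ (Bp p v θ C S).x → ((p, v, θ, C, S) : E5) ∈ EE T δ := by
      intro p v θ C S a₀ ha hF hv hθ h1 h2 hx
      refine ⟨⟨hF.1, hF.2.1⟩, ⟨half_le _ _ hF, hv⟩, hF.2.2.2, abs_le.1 hθ, h1, ?_, ?_⟩
      · exact h2.trans (by simp only; linarith)
      · exact (x_iff _ _ _ _ _ _ hF.2.2.1).1 hx
    by_cases hne : (EE T δ ∩ Phi ⁻¹' Uᶜ).Nonempty
    · obtain ⟨e₀, he₀, hmin⟩ := hK.exists_isMinOn hne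
        (f := fun e : E5 => e.2.2.2.1 ^ 2 + e.2.2.2.2 ^ 2 - 12 * e.2.2.1 ^ 2) (by fun_prop)
      have hm : 0 < e₀.2.2.2.1 ^ 2 + e₀.2.2.2.2 ^ 2 - 12 * e₀.2.2.1 ^ 2 := by
        have h1 : 12 * e₀.2.2.1 ^ 2 ≤ e₀.2.2.2.1 ^ 2 + e₀.2.2.2.2 ^ 2 := he₀.1.2.2.2.2.1
        rcases h1.lt_or_eq with h2 | h2
        · linarith
        · exact absurd (hKU ⟨e₀, ⟨he₀.1, h2.symm⟩, rfl⟩) he₀.2
      refine ⟨min 1 ((e₀.2.2.2.1 ^ 2 + e₀.2.2.2.2 ^ 2 - 12 * e₀.2.2.1 ^ 2) / 2), lt_min one_pos (by linarith), ?_⟩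
      intro p v θ C S hF hv hθ h1 h2 hx
      by_contra hcon
      have h3 := hmin (show ((p, v, θ, C, S) : E5) ∈ EE T δ ∩ Phi ⁻¹' Uᶜ from
        ⟨hmem p v θ C S _ (min_le_left _ _) hF hv hθ h1 h2 hx, hcon⟩)
      simp only [Set.mem_setOf_eq] at h3
      have h4 := min_le_right (1 : ℝ) ((e₀.2.2.2.1 ^ 2 + e₀.2.2.2.2 ^ 2 - 12 * e₀.2.2.1 ^ 2) / 2)
      linarith
    · refine ⟨1, one_pos, ?_⟩
      intro p v θ C S hF hv hθ h1 h2 hx
      by_contra hcon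
      exact hne ⟨(p, v, θ, C, S), hmem p v θ C S 1 le_rfl hF hv hθ h1 h2 hx, hcon⟩

end Pool.Agent.L0h82.AV
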